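import Mathlib

set_option autoImplicit false

namespace Pool.Agent.H.MP_4f92f0_co

variable (R : Type) [CommRing R]

/-- Points of the projective Hjelmslev plane: free submodules of rank 1 of `R^3`. -/
def Pt : Type := {P : Submodule R (Fin 3 → R) // Nonempty (Module.Basis (Fin 1) R P)}

/-- Lines of the projective Hjelmslev plane: free submodules of rank 2 of `R^3`. -/
def Ln : Type := {L : Submodule R (Fin 3 → R) // Nonempty (Module.Basis (Fin 2) R L)}

variable {R}

/-- The cardinality of a multiset of points. -/
noncomputable def size (K : Pt R → ℕ) : ℕ := ∑ᶠ x, K x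

/-- The multiplicity of a line. -/
noncomputable def onLine (K : Pt R → ℕ) (L : Ln R) : ℕ := ∑ᶠ (x : Pt R) (_ : x.1 ≤ L.1), K x

/-- Every line has multiplicity at most `n`. -/
def IsArc (K : Pt R → ℕ) (n : ℕ) : Prop := ∀ L : Ln R, onLine K L ≤ n

/-- An arc of largest cardinality among all multisets with line multiplicities at most `n`. -/
def IsMax (K : Pt R → ℕ) (n : ℕ) : Prop :=
  IsArc K n ∧ ∀ K' : Pt R → ℕ, IsArc K' n → size K' ≤ size K

end Pool.Agent.H.MP_4f92f0_co
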