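import Pool.Agent.H.MP_4f92f0_co.U
import Pool.Agent.H.MP_4f92f0_co.D

set_option autoImplicit false

namespace Pool.Agent.H.MP_4f92f0_co
open Finset Module Submodule

abbrev R : Type := DualNumber (ZMod 3)
instance : DecidableEq R := inferInstanceAs (DecidableEq (ZMod 3 × ZMod 3))
instance : Fintype R := inferInstanceAs (Fintype (ZMod 3 × ZMod 3))

def el (c : ℕ) : R := ((c : ZMod 3), ((c / 3 : ℕ) : ZMod 3))
def vec (v : ℕ) : Fin 3 → R := ![el (v % 9), el (v / 9 % 9), el (v / 81)]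
def mulc (x y : ℕ) : ℕ := lk
  0x723156480246813570360360360183426750516273840630630630453786120876543210000000000 4
  (Nat.add (Nat.mul 9 x) y)
def addc (x y : ℕ) : ℕ := lk
  0x435102768354021687543210876102768435021687354210876543768435102687354021876543210 4
  (Nat.add (Nat.mul 9 x) y)
def smc (r v : ℕ) : ℕ := mulc r (v % 9) + 9 * mulc r (v / 9 % 9) + 81 * mulc r (v / 81)
def dotc (w v : ℕ) : ℕ := addc (addc (mulc (Nat.mod w 9) (Nat.mod v 9))
  (mulc (Nat.mod (Nat.div w 9) 9) (Nat.mod (Nat.div v 9) 9))) (mulc (Nat.div w 81) (Nat.div v 81))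
def uc (v : ℕ) : Prop := v % 3 ≠ 0 ∨ v / 9 % 3 ≠ 0 ∨ v / 81 % 3 ≠ 0
instance (v : ℕ) : Decidable (uc v) := by unfold uc; infer_instance
def pv (i : ℕ) : ℕ := lk PV 10 i
def ix (v : ℕ) : ℕ := lk IX 7 v
def ka (i : ℕ) : ℕ := lk KA 2 i

theorem e1 : ∀ x < 9, ∀ y < 9, mulc x y < 9 ∧ addc x y < 9 ∧ el (mulc x y) = el x * el y ∧
    el (addc x y) = el x + el y ∧ (el x = el y → x = y) := by decide +kernel
theorem e2 : ∀ r : R, ∃ c < 9, el c = r := by decide +kernel
theorem e3 : ∀ x < 9, (x % 3 ≠ 0 → ∃ s < 9, el x * el s = 1) ∧ ((el x).fst = 0 → x % 3 = 0) := by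
  decide +kernel
theorem f1 : ∀ i < 117, pv i < 729 ∧ uc (pv i) ∧ ix (pv i) = i ∧ (∃ j < 117, dotc (pv j) (pv i) = 0) ∧
    ∀ r < 9, ix (smc r (pv i)) = i ∨ ix (smc r (pv i)) = 117 := by decide +kernel
theorem f2 : ∀ v < 729, (uc v → ix v < 117 ∧ ∃ r < 9, r % 3 ≠ 0 ∧ smc r (pv (ix v)) = v) ∧
    (¬ uc v → smc 3 v = 0) := by decide +kernel
theorem f3 : ∀ j < 117, ∑ i ∈ range 117, (if dotc (pv j) (pv i) = 0 then ka i else 0) ≤ 8 := by
  decide +kernel
theorem f4 : ∑ i ∈ range 117, ka i = 69 ∧ ka 0 = 2 := by decide +kernel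
def sgl (x j t : ℕ) : List ℕ := [9 * x + pp j t 0, 9 * x + pp j t 1, 9 * x + pp j t 2]
def Ls (l a b : ℕ) : List ℕ := sgl l 0 (a * ep l 0 % 3) ++ sgl ((l + 1) % 13) 1 (b * ep l 1 % 3) ++
  sgl ((l + 3) % 13) 2 ((a + b) % 3 * ep l 2 % 3) ++
  sgl ((l + 9) % 13) 3 ((a + 2 * b) % 3 * ep l 3 % 3)
def LQ (w : ℕ) (L : List ℕ) : Prop := w < 729 ∧ uc w ∧ L.Nodup ∧ ∀ i ∈ L, i < 117 ∧ dotc w (pv i) = 0
instance (w : ℕ) (L : List ℕ) : Decidable (LQ w L) := by unfold LQ; infer_instance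
theorem f5 : ∀ l < 13, ∀ a < 3, ∀ b < 3, LQ (lk LW 10 (9 * l + 3 * a + b)) (Ls l a b) := by
  decide +kernel
def FQ (a b c d e f : ZMod 3) : Prop := ∃ x y : ZMod 3, ¬ (x = 0 ∧ y = 0) ∧ x * a + y * d = 0 ∧
  x * b + y * e = 0 ∧ x * c + y * f = 0
instance (a b c d e f : ZMod 3) : Decidable (FQ a b c d e f) := by unfold FQ; infer_instance
def FP (a b c d e f : ZMod 3) : Prop :=
  b * f - c * e = 0 → c * d - a * f = 0 → a * e - b * d = 0 → FQ a b c d e f
instance (a b c d e f : ZMod 3) : Decidable (FP a b c d e f) := by unfold FP; infer_instance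
theorem f6 : ∀ a b c d e f : ZMod 3, FP a b c d e f := by decide +kernel
theorem f7 : (∀ i, vec 0 i = 0) ∧ ∀ r : R, 0 = el 3 * r → r.fst = 0 := by decide +kernel

attribute [local irreducible] mulc addc lk pv ix ka

theorem vec_surj (v : Fin 3 → R) : ∃ c < 729, vec c = v := by
  obtain ⟨a, ha, a1⟩ := e2 (v 0)
  obtain ⟨b, hb, b1⟩ := e2 (v 1)
  obtain ⟨c, hc, c1⟩ := e2 (v 2)
  refine ⟨a + 9 * b + 81 * c, by omega, ?_⟩
  rw [vec, show (a + 9 * b + 81 * c) % 9 = a by omega,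
    show (a + 9 * b + 81 * c) / 9 % 9 = b by omega, show (a + 9 * b + 81 * c) / 81 = c by omega,
    a1, b1, c1]
  ext1 i; fin_cases i <;> rfl

theorem vec_inj {v w : ℕ} (hv : v < 729) (hw : w < 729) (h : vec v = vec w) : v = w := by
  have a := (e1 _ (by omega) _ (by omega)).2.2.2.2 (congrFun h 0)
  have b := (e1 _ (by omega) _ (by omega)).2.2.2.2 (congrFun h 1)
  have c := (e1 _ (by omega) _ (by omega)).2.2.2.2 (congrFun h 2)
  omega

theorem vec_sm {r v : ℕ} (hr : r < 9) (hv : v < 729) :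
    smc r v < 729 ∧ vec (smc r v) = el r • vec v := by
  obtain ⟨a, -, a', -⟩ := e1 r hr (v % 9) (by omega)
  obtain ⟨b, -, b', -⟩ := e1 r hr (v / 9 % 9) (by omega)
  obtain ⟨c, -, c', -⟩ := e1 r hr (v / 81) (by omega)
  refine ⟨by unfold smc; omega, ?_⟩
  rw [vec, show smc r v % 9 = mulc r (v % 9) by unfold smc; omega,
    show smc r v / 9 % 9 = mulc r (v / 9 % 9) by unfold smc; omega,
    show smc r v / 81 = mulc r (v / 81) by unfold smc; omega, a', b', c']
  ext1 i; fin_cases i <;> rfl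

theorem dot_iff {w v : ℕ} (hw : w < 729) (hv : v < 729) : dotc w v = 0 ↔ vec w ⬝ᵥ vec v = 0 := by
  obtain ⟨a, -, a', -⟩ := e1 (w % 9) (by omega) (v % 9) (by omega)
  obtain ⟨b, -, b', -⟩ := e1 (w / 9 % 9) (by omega) (v / 9 % 9) (by omega)
  obtain ⟨c, -, c', -⟩ := e1 (w / 81) (by omega) (v / 81) (by omega)
  obtain ⟨-, d, -, d', -⟩ := e1 _ a _ b
  obtain ⟨-, e, -, e', -⟩ := e1 _ d _ c
  have : vec w ⬝ᵥ vec v = el (dotc w v) := by
    change _ = el (addc (addc (mulc (w % 9) (v % 9)) (mulc (w / 9 % 9) (v / 9 % 9)))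
      (mulc (w / 81) (v / 81)))
    rw [e', d', a', b', c']
    simp [vec, dotProduct, Fin.sum_univ_three]
  rw [this]
  exact ⟨fun h => h ▸ rfl, fun h => (e1 _ e 0 (by omega)).2.2.2.2 h⟩

theorem unit {x : ℕ} (h : x < 9) (h' : x % 3 ≠ 0) : IsUnit (el x) := by
  obtain ⟨s, -, hs⟩ := (e3 x h).1 h'
  exact IsUnit.of_mul_eq_one _ hs

theorem uc_unit {v : ℕ} (hv : v < 729) (h : uc v) : ∃ i, IsUnit (vec v i) := by
  rcases h with h | h | h
  · exact ⟨0, unit (by omega) (by omega)⟩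
  · exact ⟨1, unit (by omega) (by omega)⟩
  · exact ⟨2, unit (by omega) (by omega)⟩

theorem free1 {v : Fin 3 → R} (h : ∃ i, IsUnit (v i)) : Nonempty (Basis (Fin 1) R (span R {v})) := by
  obtain ⟨i, hi⟩ := h
  have : LinearIndependent R fun _ : Fin 1 => v := by
    rw [Fintype.linearIndependent_iff]
    intro g hg j
    have := congrFun hg i
    simp only [Fin.sum_univ_one, Pi.smul_apply, smul_eq_mul, Pi.zero_apply] at this
    rw [Subsingleton.elim j 0]
    exact (hi.mul_left_eq_zero).1 this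
  exact ⟨(Set.range_const (ι := Fin 1) (c := v)) ▸ Basis.span this⟩

def kr (w : Fin 3 → R) : Submodule R (Fin 3 → R) := LinearMap.ker (dotProductBilin R R w)
theorem mem_kr {w v : Fin 3 → R} : v ∈ kr w ↔ w ⬝ᵥ v = 0 := Iff.rfl

theorem free2 {w : Fin 3 → R} (h : ∃ i, IsUnit (w i)) : Nonempty (Basis (Fin 2) R (kr w)) := by
  obtain ⟨i, u, hu⟩ := h
  let φ : kr w →ₗ[R] (Fin 2 → R) := (LinearMap.funLeft R R i.succAbove).comp (kr w).subtype
  refine ⟨(Pi.basisFun R (Fin 2)).map (LinearEquiv.ofBijective φ ⟨?_, fun y => ?_⟩).symm⟩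
  · rw [injective_iff_map_eq_zero]
    rintro ⟨v, hv⟩ h
    have z : ∀ j, v (i.succAbove j) = 0 := congrFun h
    rw [mem_kr, dotProduct, Fin.sum_univ_succAbove _ i] at hv
    simp only [z, mul_zero, sum_const_zero, add_zero, ← hu, Units.mul_right_eq_zero] at hv
    ext1
    ext1 j
    exact i.succAboveCases hv z j
  · refine ⟨⟨i.insertNth (-(u⁻¹ * ∑ j, w (i.succAbove j) * y j)) y, ?_⟩, ?_⟩
    · rw [mem_kr, dotProduct, Fin.sum_univ_succAbove _ i]
      simp [← hu]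
    · ext1 j; simp [φ, LinearMap.funLeft_apply]

def pt (i : Fin 117) : Pt R :=
  ⟨span R {vec (pv i)}, free1 (uc_unit (f1 i i.2).1 (f1 i i.2).2.1)⟩
def lin (w : ℕ) (h : w < 729) (h' : uc w) : Ln R := ⟨kr (vec w), free2 (uc_unit h h')⟩

theorem pt_bij : Function.Bijective pt := by
  constructor
  · intro i j h
    have : vec (pv j) ∈ span R {vec (pv i)} := by
      rw [show span R {vec (pv i)} = span R {vec (pv j)} from congrArg Subtype.val h]
      exact mem_span_singleton_self _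
    obtain ⟨r, hr⟩ := mem_span_singleton.1 this
    obtain ⟨r, r9, rfl⟩ := e2 r
    obtain ⟨a, b⟩ := vec_sm r9 (f1 i i.2).1
    have := (f1 i i.2).2.2.2.2 r r9
    rw [vec_inj a (f1 j j.2).1 (b.trans hr), (f1 j j.2).2.2.1] at this
    ext; omega
  · rintro ⟨P, ⟨b⟩⟩
    obtain ⟨c, hc, e⟩ := vec_surj (b 0)
    have hP : P = span R {vec c} := by
      rw [← P.map_subtype_top, ← b.span_eq, map_span, ← Set.range_comp, Set.range_unique, e]
      rfl
    have u : uc c := by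
      by_contra hn
      have h := (vec_sm (r := 3) (by omega) hc).2
      rw [(f2 c hc).2 hn, e] at h
      have : ∑ i : Fin 1, el 3 • b i = 0 := by
        rw [Fin.sum_univ_one]; ext1; rw [Submodule.coe_smul, ← h]; exact funext f7.1
      exact absurd (Fintype.linearIndependent_iff.1 b.linearIndependent (fun _ => el 3) this 0)
        (by decide +kernel)
    obtain ⟨a, r, r9, r3, h⟩ := (f2 c hc).1 u
    refine ⟨⟨_, a⟩, Subtype.ext ?_⟩
    change span R {vec (pv (ix c))} = P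
    rw [hP, ← span_singleton_smul_eq (unit r9 r3), ← (vec_sm r9 (f1 _ a).1).2, h]

theorem ln_le (L : Ln R) : ∃ j < 117, L.1 ≤ kr (vec (pv j)) := by
  obtain ⟨L, ⟨b⟩⟩ := L
  obtain ⟨c, hc, e⟩ := vec_surj (crossProduct (b 0 : Fin 3 → R) (b 1))
  have u : uc c := by
    by_contra hn
    have z : ∀ i, (vec c i).fst = 0 := by
      have h := (vec_sm (r := 3) (by omega) hc).2
      rw [(f2 c hc).2 hn] at h
      intro i
      have := congrFun h i
      rw [f7.1 i] at this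
      exact f7.2 _ this
    rw [e, cross_apply] at z
    obtain ⟨x, y, n, h0, h1, h2⟩ := f6 _ _ _ _ _ _ (by simpa using z 0) (by simpa using z 1)
      (by simpa using z 2)
    have := Fintype.linearIndependent_iff.1 b.linearIndependent
      ![TrivSqZeroExt.inr x, TrivSqZeroExt.inr y] (by
        rw [Fin.sum_univ_two]
        ext1
        ext1 i
        fin_cases i <;> ext <;> simp <;> assumption)
    exact n ⟨congrArg TrivSqZeroExt.snd (this 0), congrArg TrivSqZeroExt.snd (this 1)⟩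
  obtain ⟨a, r, r9, r3, h⟩ := (f2 c hc).1 u
  refine ⟨_, a, ?_⟩
  have k : ∀ v, vec c ⬝ᵥ v = 0 → v ∈ kr (vec (pv (ix c))) := by
    intro v hv
    rw [← h, (vec_sm r9 (f1 _ a).1).2, smul_dotProduct, smul_eq_mul] at hv
    exact (unit r9 r3).mul_right_eq_zero.1 hv
  change L ≤ _
  rw [← L.map_subtype_top, ← b.span_eq, map_span, span_le]
  rintro _ ⟨_, ⟨i, rfl⟩, rfl⟩
  apply k
  rw [e, dotProduct_comm]
  fin_cases i
  · exact dot_self_cross _ _
  · exact dot_cross_self _ _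

theorem sz (K : Pt R → ℕ) : size K = ∑ i, K (pt i) := by
  let _ := Fintype.ofBijective pt pt_bij
  rw [size, finsum_eq_sum_of_fintype, pt_bij.sum_comp]

open Classical in
theorem ol (K : Pt R → ℕ) (L : Ln R) :
    onLine K L = ∑ i, if (pt i).1 ≤ L.1 then K (pt i) else 0 := by
  simp only [onLine, finsum_eq_if]
  exact sz _

theorem le_kr {w : ℕ} (h : w < 729) (i : Fin 117) :
    (pt i).1 ≤ kr (vec w) ↔ dotc w (pv i) = 0 := by
  rw [dot_iff h (f1 i i.2).1]; exact span_singleton_le_iff_mem _ _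

theorem proj {K : Pt R → ℕ} (h : IsArc K 8) (h1 : ∀ x, K x ≤ 1) : size K ≤ 69 := by
  let f : ℕ → ℕ := fun i => if h : i < 117 then K (pt ⟨i, h⟩) else 0
  have e : ∀ i : Fin 117, K (pt i) = f i := fun i => by simp [f]
  rw [sz]; simp only [e]
  rw [Fin.sum_univ_eq_sum_range f 117]
  refine UB (fun i => by simp only [f]; split_ifs <;> simp [h1]) fun l hl a ha b hb => ?_
  obtain ⟨w1, w2, n, q⟩ := f5 l hl a ha b hb
  have := h (lin _ w1 w2)
  rw [ol] at this
  simp only [lin, le_kr w1, e] at this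
  rw [Fin.sum_univ_eq_sum_range (fun i => if dotc _ (pv i) = 0 then f i else 0) 117,
    ← sum_filter] at this
  have k := sum_le_sum_of_subset (f := f) (s := (Ls l a b).toFinset) (fun i hi =>
    mem_filter.2 ⟨mem_range.2 (q i (List.mem_toFinset.1 hi)).1, (q i (List.mem_toFinset.1 hi)).2⟩)
  rw [List.sum_toFinset _ n] at k
  refine le_trans (le_of_eq ?_) (k.trans this)
  simp only [Ls, sgl, sg, List.map_append, List.sum_append, List.map_cons, List.sum_cons,
    List.map_nil, List.sum_nil]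
  ring

noncomputable def KK (P : Pt R) : ℕ := ka (Equiv.ofBijective pt pt_bij |>.symm P)
theorem KK_pt (i : Fin 117) : KK (pt i) = ka i := by
  simp only [KK, Equiv.ofBijective_symm_apply_apply]

theorem KK_arc : IsArc KK 8 := by
  intro L
  obtain ⟨j, hj, h⟩ := ln_le L
  refine le_trans ?_ (f3 j hj)
  rw [ol, ← Fin.sum_univ_eq_sum_range (fun i => if dotc _ (pv i) = 0 then ka i else 0) 117]
  refine sum_le_sum fun i _ => ?_
  split_ifs with a b
  · exact (KK_pt i).le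
  · exact absurd ((le_kr (f1 j hj).1 i).1 (a.trans h)) b
  all_goals omega

theorem KK_sz : size KK = 69 := by
  rw [sz]; simp only [KK_pt]; rw [Fin.sum_univ_eq_sum_range ka 117, f4.1]

theorem bdd {K : Pt R → ℕ} (h : IsArc K 8) : size K ≤ 117 * 8 := by
  rw [sz]
  refine (sum_le_card_nsmul _ _ 8 fun i _ => ?_).trans (by simp)
  obtain ⟨j, hj, d⟩ := (f1 i i.2).2.2.2.1
  have := h (lin _ (f1 j hj).1 (f1 j hj).2.1)
  rw [ol] at this
  refine le_trans ?_ ((single_le_sum (fun _ _ => Nat.zero_le _) (mem_univ i)).trans this)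
  exact (if_pos ((le_kr (f1 j hj).1 i).2 d)).ge

end Pool.Agent.H.MP_4f92f0_co
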