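import Pool.Agent.H.MP_4f92f0_co.T

set_option autoImplicit false

namespace Pool.Agent.H.MP_4f92f0_co

def ty (a b c : ℕ) : ℕ := lk TY 4 (Nat.add a (Nat.add (Nat.mul 4 b) (Nat.mul 16 c)))
def ty3 (x : ℕ × ℕ × ℕ) : ℕ := ty x.1 x.2.1 x.2.2
def dt (t : ℕ) : ℕ := lk DT 4 t
def w (t : ℕ) : ℕ := wl.getD t 0
def gm (a b c : ℕ) : ℕ := lk (Gl.getD a 0) 16 (Nat.add b (Nat.mul 15 c))
def mx (a b : ℕ) : ℕ := cond (Nat.ble a b) b a
def mn (a : ℕ) : ℕ := cond (Nat.ble a 3) a 3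

noncomputable def ll (x y z : ℕ × ℕ × ℕ) : Bool :=
  force (mx (mx (Nat.add (Nat.add x.1 y.1) z.1) (Nat.add (Nat.add x.2.1 y.2.1) z.2.2))
    (Nat.add (Nat.add x.2.2 y.2.2) z.2.1)) fun m0 =>
  force (mx (mx (Nat.add (Nat.add x.2.1 y.1) z.2.1) (Nat.add (Nat.add x.2.2 y.2.1) z.1))
    (Nat.add (Nat.add x.1 y.2.2) z.2.2)) fun m1 =>
  force (mx (mx (Nat.add (Nat.add x.2.2 y.1) z.2.2) (Nat.add (Nat.add x.1 y.2.1) z.2.1))
    (Nat.add (Nat.add x.2.1 y.2.2) z.1)) fun m2 =>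
  or (Nat.blt 8 (mx (mx m0 m1) m2))
    (force (lk MK 16 (Nat.add (mn (Nat.sub 8 m0)) (Nat.add (Nat.mul 4 (mn (Nat.sub 8 m1)))
      (Nat.mul 16 (mn (Nat.sub 8 m2)))))) fun m =>
        Nat.beq (Nat.land m (gm (ty3 x) (ty3 y) (ty3 z))) m)

theorem llc : (l22.all fun x => l22.all fun y => l48.all fun z => ll x y z) = true := by
  decide +kernel

noncomputable def two (a : ℕ) (f : ℕ → Bool) : Bool := and (f 0) (f a)

noncomputable def gc (a b c d : ℕ) : Bool :=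
  force (Nat.add (Nat.add (dt a) (dt b)) (Nat.add (dt c) (dt d))) fun D =>
    or (Nat.blt 8 D) (or (not (Nat.testBit (gm a b c) d))
      (force (w a) fun wa => force (w b) fun wb => force (w c) fun wc => force (w d) fun wd =>
        two wa fun p => two wb fun q => two wc fun r => two wd fun s =>
          Nat.ble (lbf (Nat.add (Nat.add p q) (Nat.add r s))) D))

noncomputable def gca (a : ℕ) : Bool :=
  (List.range 15).all fun b => (List.range 15).all fun c => (List.range 15).all fun d => gc a b c d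

end Pool.Agent.H.MP_4f92f0_co
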