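import Pool.Agent.H.MP_4f92f0_co.L

set_option autoImplicit false

namespace Pool.Agent.H.MP_4f92f0_co

theorem g0 : gca 0 = true := by decide +kernel
theorem g1 : gca 1 = true := by decide +kernel
theorem g2 : gca 2 = true := by decide +kernel
theorem g3 : gca 3 = true := by decide +kernel
theorem g4 : gca 4 = true := by decide +kernel
theorem g5 : gca 5 = true := by decide +kernel
theorem g6 : gca 6 = true := by decide +kernel
theorem g7 : gca 7 = true := by decide +kernel
theorem g8 : gca 8 = true := by decide +kernel
theorem g9 : gca 9 = true := by decide +kernel
theorem g10 : gca 10 = true := by decide +kernel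
theorem g11 : gca 11 = true := by decide +kernel
theorem g12 : gca 12 = true := by decide +kernel
theorem g13 : gca 13 = true := by decide +kernel
theorem g14 : gca 14 = true := by decide +kernel

theorem gall (a : ℕ) (h : a < 15) : gca a = true := by
  interval_cases a
  exacts [g0, g1, g2, g3, g4, g5, g6, g7, g8, g9, g10, g11, g12, g13, g14]

end Pool.Agent.H.MP_4f92f0_co
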