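import Pool.Agent.H.MP_4f92f0_co.T

set_option autoImplicit false

namespace Pool.Agent.H.MP_4f92f0_co

theorem c0 : chk 0 13 (roots.getD 0 0) C0 (fun _ => true) = true := by decide +kernel
theorem c1 : chk 1 13 (roots.getD 1 0) C1 (fun _ => true) = true := by decide +kernel
theorem c2 : chk 2 13 (roots.getD 2 0) C2 (fun _ => true) = true := by decide +kernel
theorem c3 : chk 3 13 (roots.getD 3 0) C3 (fun _ => true) = true := by decide +kernel
theorem c4 : chk 4 13 (roots.getD 4 0) C4 (fun _ => true) = true := by decide +kernel
theorem c9 : chk 9 13 (roots.getD 9 0) C9 (fun _ => true) = true := by decide +kernel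

end Pool.Agent.H.MP_4f92f0_co
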