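import Pool.Agent.H.MP_4f92f0_co.T

set_option autoImplicit false

namespace Pool.Agent.H.MP_4f92f0_co

theorem c5 : chk 5 13 (roots.getD 5 0) C5 (fun _ => true) = true := by decide +kernel
theorem c6 : chk 6 13 (roots.getD 6 0) C6 (fun _ => true) = true := by decide +kernel
theorem c8 : chk 8 13 (roots.getD 8 0) C8 (fun _ => true) = true := by decide +kernel

end Pool.Agent.H.MP_4f92f0_co
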