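import Pool.Agent.H.MP_4f92f0_co.T

set_option autoImplicit false

namespace Pool.Agent.H.MP_4f92f0_co

theorem c7 : chk 7 13 (roots.getD 7 0) C7 (fun _ => true) = true := by decide +kernel

end Pool.Agent.H.MP_4f92f0_co
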