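import Pool.Agent.H.MP_4f92f0_co.L
import Pool.Agent.H.MP_4f92f0_co.T1
import Pool.Agent.H.MP_4f92f0_co.T2
import Pool.Agent.H.MP_4f92f0_co.T3

set_option autoImplicit false

namespace Pool.Agent.H.MP_4f92f0_co
open Finset

attribute [local irreducible] LB

theorem mod_eq (a b : ℕ) : Nat.mod a b = a % b := rfl
theorem lbl_eq (S l : ℕ) : lbl S l = lbf (fld S l) := by
  unfold lbl lbf fld
  rw [mod_eq (Nat.mod _ _), mod_eq _ 65536, Nat.mod_mod_of_dvd _ (by norm_num)]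
  rfl

theorem force_eq (n : ℕ) (f : ℕ → Bool) : force n f = f n := by cases n <;> rfl

def inc (x l : ℕ) : Prop :=
  (x + 13 - l) % 13 = 0 ∨ (x + 13 - l) % 13 = 1 ∨ (x + 13 - l) % 13 = 3 ∨ (x + 13 - l) % 13 = 9
instance (x l : ℕ) : Decidable (inc x l) := by unfold inc; infer_instance

theorem sl (F : ℕ → ℕ) {x : ℕ} (h : x < 13) : ∑ l ∈ range 13, (if inc x l then F l else 0) =
    F x + F ((x + 12) % 13) + F ((x + 10) % 13) + F ((x + 4) % 13) := by
  interval_cases x <;> simp +decide [sum_range_succ] <;> omega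

theorem sp (F : ℕ → ℕ) {l : ℕ} (h : l < 13) : ∑ x ∈ range 13, (if inc x l then F x else 0) =
    F l + F ((l + 1) % 13) + F ((l + 3) % 13) + F ((l + 9) % 13) := by
  interval_cases l <;> simp +decide [sum_range_succ] <;> omega

def DL (d : ℕ → ℕ) (l : ℕ) : ℕ := ∑ x ∈ range 13, if inc x l then d x else 0

theorem dc (d : ℕ → ℕ) {q : ℕ} (h : q < 13) :
    DL d q + DL d ((q + 12) % 13) + DL d ((q + 10) % 13) + DL d ((q + 4) % 13) =
      ∑ x ∈ range 13, d x + 3 * d q := by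
  unfold DL
  rw [sp d h, sp d (Nat.mod_lt _ (by norm_num)), sp d (Nat.mod_lt _ (by norm_num)),
    sp d (Nat.mod_lt _ (by norm_num))]
  interval_cases q <;> simp [sum_range_succ] <;> omega

structure Good (τ : ℕ → ℕ → ℕ) (d k : ℕ → ℕ) : Prop where
  h1 : ∀ x < 13, ∀ l < 13, inc x l → τ x l < 15 ∧ dt (τ x l) = d x
  h2 : ∀ x < 13, k x < 10 ∧
    ∑ l ∈ range 13, (if inc x l then 5 ^ τ x l else 0) = K10.getD (k x) 0
  h3 : ∀ l < 13, ∀ A ⊆ range 13, lbf (∑ x ∈ A, if inc x l then w (τ x l) else 0) ≤ DL d l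
  h4 : ∑ x ∈ range 13, d x ≤ 8

def Q5 (k a b c e : ℕ) : Prop := ∃ x ∈ cls, x = (k, dt a, a, b, c, e)
instance (k a b c e : ℕ) : Decidable (Q5 k a b c e) := by unfold Q5; infer_instance
def Q4 (a b c e : ℕ) : Prop :=
  ∀ k < 10, 5 ^ a + 5 ^ b + 5 ^ c + 5 ^ e = K10.getD k 0 → Q5 k a b c e
instance (a b c e : ℕ) : Decidable (Q4 a b c e) := by unfold Q4; infer_instance
def Q2 (a b : ℕ) : Prop := ∀ c < 15, dt c = dt a → ∀ e < 15, dt e = dt a → Q4 a b c e
instance (a b : ℕ) : Decidable (Q2 a b) := by unfold Q2; infer_instance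
theorem tup0 : ∀ a < 15, ∀ b < 15, dt b = dt a → Q2 a b := by decide +kernel

theorem incl : ∀ x < 13, inc x x ∧ inc x ((x + 12) % 13) ∧ inc x ((x + 10) % 13) ∧
    inc x ((x + 4) % 13) := by decide

def pk : ℕ → (ℕ → ℕ) → ℕ
  | 0, _ => 0
  | n + 1, a => a 0 + 65536 * pk n fun i => a (i + 1)

theorem pk_add (n : ℕ) (a b : ℕ → ℕ) : pk n (fun i => a i + b i) = pk n a + pk n b := by
  induction n generalizing a b with
  | zero => rfl
  | succ n ih => simp only [pk, ih]; ring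

theorem pk_fld (n : ℕ) (a : ℕ → ℕ) (h : ∀ i, a i < 65536) (i : ℕ) (hi : i < n) :
    fld (pk n a) i = a i := by
  change pk n a >>> (16 * i) % 65536 = _
  rw [Nat.shiftRight_eq_div_pow]
  induction n generalizing a i with
  | zero => omega
  | succ n ih =>
    cases i with
    | zero => have := h 0; simp only [pk]; omega
    | succ i =>
      rw [← ih (fun i => a (i + 1)) (fun i => h _) i (by omega),
        show 2 ^ (16 * (i + 1)) = 65536 * 2 ^ (16 * i) by ring, ← Nat.div_div_eq_div_mul]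
      have := h 0
      congr 2; simp only [pk]; omega

def del (p : ℕ) (c : ℕ × ℕ × ℕ × ℕ × ℕ × ℕ) (i : ℕ) : ℕ :=
  if i < 13 then (if i = p then w c.2.2.1 else 0) + (if i = (p + 12) % 13 then w c.2.2.2.1 else 0) +
    (if i = (p + 10) % 13 then w c.2.2.2.2.1 else 0) + (if i = (p + 4) % 13 then w c.2.2.2.2.2 else 0)
  else if i = 13 + p then c.2.1 + 1 else if i = 26 then c.2.1 else 0

theorem rows_eq : ∀ p < 13, rows.getD p [] = cls.map fun c => (c.1, c.2.1, pk 27 (del p c)) := by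
  decide +kernel
theorem roots_eq : ∀ k < 10, roots.getD k 0 = pk 27 (del 0 (reps.getD k (0, 0, 0, 0, 0, 0))) := by
  decide +kernel
theorem w_lt (t : ℕ) : w t < 8192 := by
  by_cases h : t < 15
  · revert t; decide
  · simp [w, List.getD, show wl[t]? = none from List.getElem?_eq_none (by simp [wl]; omega)]

attribute [local irreducible] pk rows cls reps roots K10 lbf

section
variable {τ : ℕ → ℕ → ℕ} {d k : ℕ → ℕ}

def tu (τ : ℕ → ℕ → ℕ) (d k : ℕ → ℕ) (x : ℕ) : ℕ × ℕ × ℕ × ℕ × ℕ × ℕ :=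
  (k x, d x, τ x x, τ x ((x + 12) % 13), τ x ((x + 10) % 13), τ x ((x + 4) % 13))

theorem Good.tup (G : Good τ d k) {x : ℕ} (h : x < 13) : tu τ d k x ∈ cls := by
  have m : ∀ y, y % 13 < 13 := fun y => Nat.mod_lt _ (by norm_num)
  obtain ⟨i0, i1, i2, i3⟩ := incl x h
  obtain ⟨a0, b0⟩ := G.h1 x h x h i0
  obtain ⟨a1, b1⟩ := G.h1 x h _ (m _) i1
  obtain ⟨a2, b2⟩ := G.h1 x h _ (m _) i2
  obtain ⟨a3, b3⟩ := G.h1 x h _ (m _) i3
  have := G.h2 x h
  rw [sl (fun l => 5 ^ τ x l) h] at this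
  obtain ⟨y, hy, rfl⟩ := tup0 _ a0 _ a1 (b1.trans b0.symm) _ a2 (b2.trans b0.symm) _ a3
    (b3.trans b0.symm) _ this.1 this.2
  rwa [b0] at hy

def fa (τ : ℕ → ℕ → ℕ) (d k : ℕ → ℕ) (A : Finset ℕ) (i : ℕ) : ℕ := ∑ x ∈ A, del x (tu τ d k x) i

theorem fa1 {A : Finset ℕ} (hA : A ⊆ range 13) {l : ℕ} (h : l < 13) :
    fa τ d k A l = ∑ x ∈ A, if inc x l then w (τ x l) else 0 := by
  refine sum_congr rfl fun x hx => ?_
  have hx := mem_range.1 (hA hx)
  simp only [del, tu, h, if_true]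
  interval_cases x <;> interval_cases l <;> simp +decide

theorem fa2 (A : Finset ℕ) {q : ℕ} (h : q < 13) :
    fa τ d k A (13 + q) = if q ∈ A then d q + 1 else 0 := by
  rw [← sum_ite_eq A q (fun x => d x + 1)]
  refine sum_congr rfl fun x _ => ?_
  simp only [del, tu]
  rw [if_neg (by omega), if_neg (show 13 + q ≠ 26 by omega)]
  simp

theorem fa3 {A : Finset ℕ} (hA : A ⊆ range 13) : fa τ d k A 26 = ∑ x ∈ A, d x := by
  refine sum_congr rfl fun x hx => ?_
  have hx := mem_range.1 (hA hx)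
  simp only [del, tu]
  rw [if_neg (by omega), if_neg (by omega)]
  simp

theorem Good.fab (G : Good τ d k) {A : Finset ℕ} (hA : A ⊆ range 13) (i : ℕ) :
    fa τ d k A i < 65536 := by
  have h4 := G.h4
  by_cases h : i < 13
  · rw [fa1 hA h]
    refine (sum_le_sum_of_subset hA).trans_lt ?_
    rw [sp (fun x => w (τ x i)) h]
    have := w_lt (τ i i)
    have := w_lt (τ ((i + 1) % 13) i)
    have := w_lt (τ ((i + 3) % 13) i)
    have := w_lt (τ ((i + 9) % 13) i)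
    omega
  by_cases h' : i < 26
  · obtain ⟨q, rfl⟩ : ∃ q, i = 13 + q := ⟨i - 13, by omega⟩
    rw [fa2 A (by omega)]
    have := single_le_sum (f := d) (fun _ _ => Nat.zero_le _) (mem_range.2 (show q < 13 by omega))
    split_ifs <;> omega
  by_cases h'' : i = 26
  · rw [h'', fa3 hA]; have := sum_le_sum_of_subset (f := d) hA; omega
  rw [fa, sum_eq_zero]
  · norm_num
  intro x hx
  have hx := mem_range.1 (hA hx)
  simp only [del]
  rw [if_neg h, if_neg (by omega), if_neg h'']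

def Inv (τ : ℕ → ℕ → ℕ) (d k : ℕ → ℕ) (S : ℕ) : Prop :=
  ∃ A ⊆ range 13, S = pk 27 (fa τ d k A)

theorem Good.star (G : Good τ d k) {S q : ℕ} (I : Inv τ d k S) (hq : q < 13)
    (h : star S q = true) : False := by
  obtain ⟨A, hA, rfl⟩ := I
  have l : ∀ l < 13, lbl (pk 27 (fa τ d k A)) l ≤ DL d l := by
    intro l hl
    have := G.h3 l hl A hA
    rw [← fa1 (k := k) (d := d) hA hl, ← pk_fld 27 _ (G.fab hA) l (by omega)] at this
    rwa [lbl_eq]
  have m : ∀ y, y % 13 < 13 := fun y => Nat.mod_lt _ (by norm_num)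
  have f := pk_fld 27 _ (G.fab hA) (13 + q) (by omega)
  rw [fa2 A hq] at f
  generalize pk 27 (fa τ d k A) = S at h l f
  simp only [MP_4f92f0_co.star, force_eq, Nat.add_eq, Nat.mul_eq, mod_eq, Bool.and_eq_true,
    Nat.ble_eq, Nat.blt_eq, f] at h
  have a0 := dc d hq
  have a1 := G.h4
  have a2 := add_le_add (add_le_add (add_le_add (l q hq) (l _ (m (q + 12)))) (l _ (m (q + 10))))
    (l _ (m (q + 4)))
  rw [a0, add_assoc (_ + _)] at a2
  have a3 := h.2.trans_le a2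
  have a4 := h.1
  clear h a2 a0 l f
  split_ifs at a3 a4 <;> omega

theorem Good.kids (G : Good τ d k) {rc : ℕ → ℕ → (ℕ → Bool) → Bool}
    (hr : ∀ S C κ, rc S C κ = true → ¬ Inv τ d k S ∧ ∃ C', κ C' = true) (k0 D S : ℕ)
    (r : List (ℕ × ℕ × ℕ)) : ∀ h C κ, kids rc k0 D S r h C κ = true →
      (∀ c ∈ r, k0 ≤ c.1 → D + c.2.1 ≤ 8 → ¬ Inv τ d k (S + c.2.2)) ∧ ∃ C', κ C' = true := by
  induction r with
  | nil => exact fun h C κ e => ⟨by simp, C, e⟩
  | cons c r ih =>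
    intro h C κ e
    change cond _ (MP_4f92f0_co.kids rc k0 D S r h C κ) (force _ fun S' => force _ fun q =>
      force _ fun h' => cond _ (and _ (MP_4f92f0_co.kids rc k0 D S r h' C κ))
        (rc S' C fun C' => MP_4f92f0_co.kids rc k0 D S r h' C' κ)) = true at e
    simp only [force_eq, Nat.add_eq, mod_eq, Bool.cond_eq_ite, Bool.or_eq_true,
      Nat.blt_eq] at e
    simp only [List.forall_mem_cons]
    split_ifs at e with h1 h2
    · exact ⟨⟨by omega, (ih _ _ _ e).1⟩, (ih _ _ _ e).2⟩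
    · rw [Bool.and_eq_true] at e
      exact ⟨⟨fun _ _ I => G.star I h2 e.1, (ih _ _ _ e.2).1⟩, (ih _ _ _ e.2).2⟩
    · obtain ⟨a, C', b⟩ := hr _ _ _ e
      exact ⟨⟨fun _ _ => a, (ih _ _ _ b).1⟩, (ih _ _ _ b).2⟩

theorem chk_succ (k0 n S C : ℕ) (κ : ℕ → Bool) : chk k0 (n + 1) S C κ =
    force (Nat.mod C (Nat.pow 2 160)) fun h => force (Nat.shiftRight C 160) fun C' =>
      force (Nat.mod h 16) fun p => and (Nat.blt p 13) (and (Nat.beq (fld S (Nat.add 13 p)) 0)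
        (force (fld S 26) fun D =>
          kids (chk k0 n) k0 D S (rows.getD p []) (Nat.shiftRight h 4) C' κ)) := rfl

theorem Good.chk (G : Good τ d k) {k0 : ℕ} (hk : ∀ x < 13, k0 ≤ k x) (n : ℕ) :
    ∀ S C κ, chk k0 n S C κ = true → ¬ Inv τ d k S ∧ ∃ C', κ C' = true := by
  induction n with
  | zero => intro S C κ e; cases e
  | succ n ih =>
    intro S C κ e
    rw [chk_succ] at e
    simp only [force_eq, Nat.add_eq, mod_eq, Bool.and_eq_true, Nat.blt_eq,
      Nat.beq_eq] at e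
    obtain ⟨hp, e0, e⟩ := e
    generalize (C % Nat.pow 2 160) % 16 = p at *
    obtain ⟨a, b⟩ := G.kids ih _ _ _ _ _ _ _ e
    refine ⟨?_, b⟩
    rintro ⟨A, hA, rfl⟩
    rw [pk_fld 27 _ (G.fab hA) _ (by omega), fa2 A hp] at e0
    have n : p ∉ A := fun h => by simp [h] at e0
    have hA' : insert p A ⊆ range 13 := insert_subset (mem_range.2 hp) hA
    rw [rows_eq p hp, pk_fld 27 _ (G.fab hA) _ (by omega), fa3 hA] at a
    refine a _ (List.mem_map_of_mem (G.tup hp)) (hk p hp) ?_ ⟨_, hA', ?_⟩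
    · have := sum_le_sum_of_subset (f := d) hA'
      rw [sum_insert n] at this
      have := G.h4
      simp only [tu]; omega
    · rw [← pk_add]; congr 1; ext i; simp only [fa, sum_insert n]; ring

theorem Good.aut (G : Good τ d k) (π ρ : ℕ → ℕ) (h1 : (range 13).image π = range 13)
    (h2 : (range 13).image ρ = range 13) (h : ∀ x < 13, ∀ l < 13, inc (π x) (ρ l) ↔ inc x l) :
    Good (fun x l => τ (π x) (ρ l)) (fun x => d (π x)) (fun x => k (π x)) := by
  have i : ∀ {π : ℕ → ℕ}, (range 13).image π = range 13 → Set.InjOn π (range 13 : Finset ℕ) :=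
    fun h => card_image_iff.1 (by rw [h])
  have b : ∀ {π : ℕ → ℕ}, (range 13).image π = range 13 → ∀ x < 13, π x < 13 :=
    fun h x hx => mem_range.1 (h ▸ mem_image_of_mem _ (mem_range.2 hx))
  have s : ∀ {π : ℕ → ℕ}, (range 13).image π = range 13 → ∀ F : ℕ → ℕ,
      ∑ x ∈ range 13, F x = ∑ x ∈ range 13, F (π x) := fun h F => by
    rw [← sum_image (i h), h]
  refine ⟨fun x hx l hl e => G.h1 _ (b h1 x hx) _ (b h2 l hl) ((h x hx l hl).2 e),
    fun x hx => ⟨(G.h2 _ (b h1 x hx)).1, ?_⟩, fun l hl A hA => ?_, s h1 d ▸ G.h4⟩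
  · rw [← (G.h2 _ (b h1 x hx)).2, s h2 (fun l => if inc (π x) l then 5 ^ τ (π x) l else 0)]
    exact sum_congr rfl fun l hl => by simp only [h x hx l (mem_range.1 hl)]
  · have := G.h3 _ (b h2 l hl) (A.image π) (h1 ▸ image_subset_image hA)
    rw [sum_image ((i h1).mono (by exact_mod_cast hA)), DL, s h1] at this
    convert this using 2
    · exact sum_congr rfl fun x hx => by simp only [h x (mem_range.1 (hA hx)) l hl]
    · exact sum_congr rfl fun x hx => by simp only [h x (mem_range.1 hx) l hl]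

def sel (c : ℕ × ℕ × ℕ × ℕ × ℕ × ℕ) (l : ℕ) : ℕ :=
  if l = 0 then c.2.2.1 else if l = 12 then c.2.2.2.1 else if l = 10 then c.2.2.2.2.1 else c.2.2.2.2.2

theorem au1 : ∀ g ∈ auts, (range 13).image (lk g.1 4) = range 13 ∧
    (range 13).image (lk g.2 4) = range 13 ∧ lk g.1 4 0 = 0 ∧
    (∀ l ∈ [0, 12, 10, 4], lk g.2 4 l ∈ [0, 12, 10, 4]) ∧
    ∀ x < 13, ∀ l < 13, inc (lk g.1 4 x) (lk g.2 4 l) ↔ inc x l := by decide +kernel
theorem au2 : ∀ c ∈ cls, ∃ g ∈ auts, (c.1, c.2.1, sel c (lk g.2 4 0), sel c (lk g.2 4 12),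
    sel c (lk g.2 4 10), sel c (lk g.2 4 4)) = reps.getD c.1 (0, 0, 0, 0, 0, 0) := by
  decide +kernel
theorem au3 : ∀ s < 13, (range 13).image (fun x => (x + s) % 13) = range 13 ∧
    ∀ x < 13, ∀ l < 13, inc ((x + s) % 13) ((l + s) % 13) ↔ inc x l := by decide +kernel

theorem Good.fin (G : Good τ d k) (hk : ∀ x < 13, k 0 ≤ k x)
    (e : tu τ d k 0 = reps.getD (k 0) (0, 0, 0, 0, 0, 0)) : False := by
  have h := (G.h2 0 (by norm_num)).1
  have I : Inv τ d k (roots.getD (k 0) 0) :=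
    ⟨{0}, by simp, by rw [roots_eq _ h, ← e]; congr 1⟩
  have c := G.chk hk 13
  generalize k 0 = j at h I c
  interval_cases j
  exacts [(c _ _ _ c0).1 I, (c _ _ _ c1).1 I, (c _ _ _ c2).1 I, (c _ _ _ c3).1 I,
    (c _ _ _ c4).1 I, (c _ _ _ c5).1 I, (c _ _ _ c6).1 I, (c _ _ _ c7).1 I, (c _ _ _ c8).1 I,
    (c _ _ _ c9).1 I]

theorem Good.fin1 (G : Good τ d k) (hk : ∀ x < 13, k 0 ≤ k x) : False := by
  obtain ⟨g, hg, e⟩ := au2 _ (G.tup (x := 0) (by norm_num))
  obtain ⟨a1, a2, a3, a4, a5⟩ := au1 g hg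
  have s : ∀ l ∈ [0, 12, 10, 4], sel (tu τ d k 0) l = τ 0 l := by simp [sel, tu]
  refine (G.aut _ _ a1 a2 a5).fin (fun x hx => ?_) ?_
  · rw [a3]; exact hk _ (mem_range.1 (a1 ▸ mem_image_of_mem _ (mem_range.2 hx)))
  · rw [s _ (a4 _ (by simp)), s _ (a4 _ (by simp)), s _ (a4 _ (by simp)),
      s _ (a4 _ (by simp))] at e
    simp only [tu, a3]
    exact e

theorem Good.no (G : Good τ d k) : False := by
  obtain ⟨s, hs, h⟩ := exists_min_image (range 13) k ⟨0, by simp⟩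
  have hs := mem_range.1 hs
  refine (G.aut _ _ (au3 s hs).1 (au3 s hs).1 (au3 s hs).2).fin1 fun x _ => ?_
  rw [zero_add, Nat.mod_eq_of_lt hs]
  exact h _ (mem_range.2 (Nat.mod_lt _ (by norm_num)))

end

end Pool.Agent.H.MP_4f92f0_co
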