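import Pool.Agent.H.MP_4f92f0_co.Dat

set_option autoImplicit false

namespace Pool.Agent.H.MP_4f92f0_co

noncomputable def force (n : ℕ) (f : ℕ → Bool) : Bool := Nat.rec (f 0) (fun k _ => f (Nat.succ k)) n
def lk (T w i : ℕ) : ℕ := Nat.mod (Nat.shiftRight T (Nat.mul w i)) (Nat.pow 2 w)
def fld (S i : ℕ) : ℕ := Nat.mod (Nat.shiftRight S (Nat.mul 16 i)) 65536
def lbf (k : ℕ) : ℕ := Nat.mod (Nat.shiftRight LB (Nat.mul 4 (Nat.mod k 8192))) 16
def lbl (S l : ℕ) : ℕ := lbf (Nat.shiftRight S (Nat.mul 16 l))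

noncomputable def star (S q : ℕ) : Bool :=
  force (fld S (Nat.add 13 q)) fun e => and (Nat.ble 1 e) (Nat.blt (Nat.add 5 (Nat.mul 3 e))
    (Nat.add (Nat.add (lbl S q) (lbl S (Nat.mod (Nat.add q 12) 13)))
      (Nat.add (lbl S (Nat.mod (Nat.add q 10) 13)) (lbl S (Nat.mod (Nat.add q 4) 13)))))

noncomputable def kids (rc : ℕ → ℕ → (ℕ → Bool) → Bool) (k0 D S : ℕ) (r : List (ℕ × ℕ × ℕ)) :
    ℕ → ℕ → (ℕ → Bool) → Bool :=
  List.rec (fun _ C k => k C) (fun c _ ih h C k =>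
    cond (or (Nat.blt c.1 k0) (Nat.blt 8 (Nat.add D c.2.1))) (ih h C k)
      (force (Nat.add S c.2.2) fun S' => force (Nat.mod h 16) fun q =>
        force (Nat.shiftRight h 4) fun h' =>
          cond (Nat.blt q 13) (and (star S' q) (ih h' C k)) (rc S' C fun C' => ih h' C' k))) r

noncomputable def chk (k0 n : ℕ) : ℕ → ℕ → (ℕ → Bool) → Bool :=
  Nat.rec (fun _ _ _ => false) (fun _ ih S C k =>
    force (Nat.mod C (Nat.pow 2 160)) fun h => force (Nat.shiftRight C 160) fun C' =>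
      force (Nat.mod h 16) fun p => and (Nat.blt p 13) (and (Nat.beq (fld S (Nat.add 13 p)) 0)
        (force (fld S 26) fun D => kids ih k0 D S (rows.getD p []) (Nat.shiftRight h 4) C' k))) n

end Pool.Agent.H.MP_4f92f0_co
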