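import Pool.Agent.H.MP_4f92f0_co.S
import Pool.Agent.H.MP_4f92f0_co.L1

set_option autoImplicit false

namespace Pool.Agent.H.MP_4f92f0_co
open Finset

attribute [local irreducible] LB lbf gm K10 ty dt w

def TD (x y z u : ℕ × ℕ × ℕ) : Prop :=
  (x.1 + y.1 + z.1 + u.1 ≤ 8 ∧ x.2.1 + y.2.1 + z.2.2 + u.1 ≤ 8 ∧ x.2.2 + y.2.2 + z.2.1 + u.1 ≤ 8) ∧
  (x.2.1 + y.1 + z.2.1 + u.2.1 ≤ 8 ∧ x.2.2 + y.2.1 + z.1 + u.2.1 ≤ 8 ∧
    x.1 + y.2.2 + z.2.2 + u.2.1 ≤ 8) ∧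
  (x.2.2 + y.1 + z.2.2 + u.2.2 ≤ 8 ∧ x.1 + y.2.1 + z.2.1 + u.2.2 ≤ 8 ∧
    x.2.1 + y.2.2 + z.1 + u.2.2 ≤ 8)
def V (x : ℕ × ℕ × ℕ) : Prop := x.1 < 4 ∧ x.2.1 < 4 ∧ x.2.2 < 4 ∧ ty3 x < 15
def rot (x : ℕ × ℕ × ℕ) : ℕ × ℕ × ℕ := (x.2.1, x.2.2, x.1)

theorem ty_s : ∀ a < 4, ∀ b < 4, ∀ c < 4, ty b c a = ty a b c ∧ ty a c b = ty a b c := by
  decide +kernel
def VQ (a b c : ℕ) : Prop :=
  (a, b, c) ∈ l48 ∧ ((a, b, c) ∈ l22 ∨ (b, c, a) ∈ l22 ∨ (c, a, b) ∈ l22)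
instance (a b c : ℕ) : Decidable (VQ a b c) := by unfold VQ; infer_instance
theorem v48 : ∀ a < 4, ∀ b < 4, ∀ c < 4, ty a b c < 15 → VQ a b c := by decide +kernel
def MQ (a b c : ℕ) : Prop := ∀ x ≤ a, ∀ y ≤ b, ∀ z ≤ c, ty x y z < 15 →
  Nat.testBit (lk MK 16 (a + (4 * b + 16 * c))) (ty x y z) = true
instance (a b c : ℕ) : Decidable (MQ a b c) := by unfold MQ; infer_instance
theorem mk : ∀ a < 4, ∀ b < 4, ∀ c < 4, MQ a b c := by decide +kernel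

theorem V.rt {x : ℕ × ℕ × ℕ} (h : V x) : ty3 (rot x) = ty3 x := (ty_s _ h.1 _ h.2.1 _ h.2.2.1).1
theorem V.r {x : ℕ × ℕ × ℕ} (h : V x) : V (rot x) := ⟨h.2.1, h.2.2.1, h.1, h.rt ▸ h.2.2.2⟩

theorem mx_eq (a b : ℕ) : mx a b = max a b := by
  simp only [mx, Bool.cond_eq_ite, Nat.ble_eq]; split_ifs <;> omega
theorem mn_eq (a : ℕ) : mn a = min a 3 := by
  simp only [mn, Bool.cond_eq_ite, Nat.ble_eq]; split_ifs <;> omega

def GB (x y z u : ℕ × ℕ × ℕ) : Prop := Nat.testBit (gm (ty3 x) (ty3 y) (ty3 z)) (ty3 u) = true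

theorem lk1 (m p : ℕ) : lk m 1 p = m / 2 ^ p % 2 := by
  rw [← Nat.shiftRight_eq_div_pow]; unfold lk; rw [Nat.mul_eq, one_mul]; rfl

attribute [local irreducible] lk l22 l48 MK

theorem ll2 {m0 m1 m2 g a b c : ℕ} (h0 : m0 + a ≤ 8) (h1 : m1 + b ≤ 8) (h2 : m2 + c ≤ 8)
    (ha : a < 4) (hb : b < 4) (hc : c < 4) (ht : ty a b c < 15)
    (e : 8 < max (max m0 m1) m2 ∨
      Nat.land (lk MK 16 (min (8 - m0) 3 + (4 * min (8 - m1) 3 + 16 * min (8 - m2) 3))) g =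
        lk MK 16 (min (8 - m0) 3 + (4 * min (8 - m1) 3 + 16 * min (8 - m2) 3))) :
    Nat.testBit g (ty a b c) = true := by
  have e := e.resolve_left (by omega)
  have := mk (min (8 - m0) 3) (by clear e; omega) (min (8 - m1) 3) (by clear e; omega)
    (min (8 - m2) 3) (by clear e; omega) a (by clear e; omega) b (by clear e; omega) c
    (by clear e; omega) ht
  rw [← e, Nat.land_eq, Nat.testBit_and, Bool.and_eq_true] at this
  exact this.2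

theorem m3 {a b c u : ℕ} (h : a + u ≤ 8 ∧ b + u ≤ 8 ∧ c + u ≤ 8) : max (max a b) c + u ≤ 8 := by
  omega

theorem LL0 {x y z u : ℕ × ℕ × ℕ} (h : TD x y z u) (hx : x ∈ l22) (hy : y ∈ l22) (hz : V z)
    (hu : V u) : GB x y z u := by
  have := List.all_eq_true.1 (List.all_eq_true.1 (List.all_eq_true.1 llc x hx) y hy) z
    (v48 _ hz.1 _ hz.2.1 _ hz.2.2.1 hz.2.2.2).1
  simp only [ll, force_eq, mx_eq, mn_eq, Nat.add_eq, Nat.mul_eq, Nat.sub_eq, Bool.or_eq_true,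
    Nat.blt_eq, Nat.beq_eq] at this
  exact ll2 (m3 h.1) (m3 h.2.1) (m3 h.2.2) hu.1 hu.2.1 hu.2.2.1 hu.2.2.2 this

theorem TD.r1 {x y z u : ℕ × ℕ × ℕ} (h : TD x y z u) : TD (rot x) y (rot z) (rot u) := by
  simp only [TD, rot] at *; tauto
theorem TD.r2 {x y z u : ℕ × ℕ × ℕ} (h : TD x y z u) : TD x (rot y) (rot z) (rot (rot u)) := by
  simp only [TD, rot] at *; tauto

theorem LL1 {x y z u : ℕ × ℕ × ℕ} (h : TD x y z u) (hx : x ∈ l22) (hy : V y) (hz : V z)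
    (hu : V u) : GB x y z u := by
  rcases (v48 _ hy.1 _ hy.2.1 _ hy.2.2.1 hy.2.2.2).2 with e | e | e
  · exact LL0 h hx e hz hu
  · have := LL0 h.r2 hx e hz.r hu.r.r
    rwa [GB, hy.rt, hz.rt, hu.r.rt, hu.rt] at this
  · have := LL0 h.r2.r2 hx e hz.r.r hu.r.r.r.r
    rwa [GB, hy.r.rt, hz.r.rt, hu.r.r.r.rt, hu.r.r.rt, hy.rt, hz.rt, hu.r.rt, hu.rt] at this

theorem LL2 {x y z u : ℕ × ℕ × ℕ} (h : TD x y z u) (hx : V x) (hy : V y) (hz : V z)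
    (hu : V u) : GB x y z u := by
  rcases (v48 _ hx.1 _ hx.2.1 _ hx.2.2.1 hx.2.2.2).2 with e | e | e
  · exact LL1 h e hy hz hu
  · have := LL1 h.r1 e hy hz.r hu.r
    rwa [GB, hx.rt, hz.rt, hu.rt] at this
  · have := LL1 h.r1.r1 e hy hz.r.r hu.r.r
    rwa [GB, hx.r.rt, hz.r.rt, hu.r.rt, hx.rt, hz.rt, hu.rt] at this

theorem FE {a b c d : ℕ} (ha : a < 15) (hb : b < 15) (hc : c < 15) (hd : d < 15)
    (g : Nat.testBit (gm a b c) d = true) (D : dt a + dt b + dt c + dt d ≤ 8)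
    (p q r s : Prop) [Decidable p] [Decidable q] [Decidable r] [Decidable s] :
    lbf ((if p then w a else 0) + (if q then w b else 0) + (if r then w c else 0) +
      (if s then w d else 0)) ≤ dt a + dt b + dt c + dt d := by
  have := gall a ha
  simp only [gca, List.all_eq_true, List.mem_range] at this
  have := this b hb c hc d hd
  simp only [gc, force_eq, two, g, Nat.add_eq, Bool.or_eq_true, Nat.blt_eq, Nat.ble_eq,
    Bool.and_eq_true, Bool.not_true, Bool.false_eq_true, false_or, ← add_assoc] at this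
  have := this.resolve_left (by omega)
  split_ifs <;> tauto

def pp (j t k : ℕ) : ℕ := lk 0x732651840642831750876543210852741630 4 (9 * j + 3 * t + k)
def sg (g : ℕ → ℕ) (j t : ℕ) : ℕ := g (pp j t 0) + g (pp j t 1) + g (pp j t 2)
def uu (g : ℕ → ℕ) : ℕ := g 0 + g 1 + g 2 + g 3 + g 4 + g 5 + g 6 + g 7 + g 8
def Tj (g : ℕ → ℕ) (j : ℕ) : ℕ := ty (sg g j 0) (sg g j 1) (sg g j 2)
def Mj (g : ℕ → ℕ) (j : ℕ) : ℕ := max (sg g j 0) (max (sg g j 1) (sg g j 2))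
def ep (l j : ℕ) : ℕ := lk EP 2 (4 * l + j)

def CA (g : ℕ → ℕ) : Prop :=
  ∀ j < 4, sg g j 0 + sg g j 1 + sg g j 2 = uu g ∧ sg g j 0 < 4 ∧ sg g j 1 < 4 ∧ sg g j 2 < 4
def CB (g : ℕ → ℕ) : Prop := 96 + uu g ≤ 69 + 3 * (Mj g 0 + Mj g 1 + Mj g 2 + Mj g 3)
def CC (g : ℕ → ℕ) : Prop := (∀ j < 4, Tj g j < 15 ∧ dt (Tj g j) + uu g = 6) ∧
  ∃ k < 10, 5 ^ Tj g 0 + 5 ^ Tj g 1 + 5 ^ Tj g 2 + 5 ^ Tj g 3 = K10.getD k 0
instance (g : ℕ → ℕ) : Decidable (CA g) := by unfold CA; infer_instance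
instance (g : ℕ → ℕ) : Decidable (CB g) := by unfold CB; infer_instance
instance (g : ℕ → ℕ) : Decidable (CC g) := by unfold CC; infer_instance
theorem cl : ∀ m < 512, CA (lk m 1) ∧ (CB (lk m 1) ∨ CC (lk m 1)) := by decide +kernel
theorem ep12 : ∀ l < 13, ∀ j < 4, ep l j = 1 ∨ ep l j = 2 := by decide +kernel

def HL (g : ℕ → ℕ → ℕ) : Prop := ∀ l < 13, ∀ a < 3, ∀ b < 3,
  sg (g l) 0 (a * ep l 0 % 3) + sg (g ((l + 1) % 13)) 1 (b * ep l 1 % 3) +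
    sg (g ((l + 3) % 13)) 2 ((a + b) % 3 * ep l 2 % 3) +
    sg (g ((l + 9) % 13)) 3 ((a + 2 * b) % 3 * ep l 3 % 3) ≤ 8

def tr (g : ℕ → ℕ) (j e : ℕ) : ℕ × ℕ × ℕ := (sg g j 0, sg g j (e % 3), sg g j (2 * e % 3))

theorem HL.td {g : ℕ → ℕ → ℕ} (H : HL g) {l : ℕ} (h : l < 13) :
    TD (tr (g l) 0 (ep l 0)) (tr (g ((l + 1) % 13)) 1 (ep l 1)) (tr (g ((l + 3) % 13)) 2 (ep l 2))
      (tr (g ((l + 9) % 13)) 3 (ep l 3)) := by
  have k := H l h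
  refine ⟨⟨?_, ?_, ?_⟩, ⟨?_, ?_, ?_⟩, ?_, ?_, ?_⟩
  · simpa [tr] using k 0 (by omega) 0 (by omega)
  · simpa [tr] using k 1 (by omega) 1 (by omega)
  · simpa [tr] using k 2 (by omega) 2 (by omega)
  · simpa [tr] using k 1 (by omega) 0 (by omega)
  · simpa [tr] using k 2 (by omega) 1 (by omega)
  · simpa [tr] using k 0 (by omega) 2 (by omega)
  · simpa [tr] using k 2 (by omega) 0 (by omega)
  · simpa [tr] using k 0 (by omega) 1 (by omega)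
  · simpa [tr] using k 1 (by omega) 2 (by omega)

theorem trf {g : ℕ → ℕ} (h : CA g) {j e : ℕ} (hj : j < 4) (he : e = 1 ∨ e = 2) :
    ty3 (tr g j e) = Tj g j ∧ (tr g j e).1 < 4 ∧ (tr g j e).2.1 < 4 ∧ (tr g j e).2.2 < 4 ∧
    (tr g j e).1 + (tr g j e).2.1 + (tr g j e).2.2 = uu g ∧
    max (tr g j e).1 (max (tr g j e).2.1 (tr g j e).2.2) = Mj g j := by
  obtain ⟨a, b, c, d⟩ := h j hj
  rcases he with rfl | rfl
  · exact ⟨rfl, b, c, d, a, rfl⟩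
  · refine ⟨(ty_s _ b _ c _ d).2, b, d, c, ?_, ?_⟩ <;> simp only [tr, Mj] <;> norm_num <;> omega

def ps (x l : ℕ) : ℕ :=
  if l = x then 0 else if l = (x + 12) % 13 then 1 else if l = (x + 10) % 13 then 2 else 3
theorem ps1 : ∀ x < 13, ps x x = 0 ∧ ps x ((x + 12) % 13) = 1 ∧ ps x ((x + 10) % 13) = 2 ∧
    ps x ((x + 4) % 13) = 3 ∧ ps ((x + 1) % 13) x = 1 ∧ ps ((x + 3) % 13) x = 2 ∧
    ps ((x + 9) % 13) x = 3 := by decide
theorem ps4 (x l : ℕ) : ps x l < 4 := by unfold ps; split_ifs <;> omega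

theorem TD.bd {x y z u : ℕ × ℕ × ℕ} (t : TD x y z u) :
    (x.1 + x.2.1 + x.2.2) + (y.1 + y.2.1 + y.2.2) + (z.1 + z.2.1 + z.2.2) + (u.1 + u.2.1 + u.2.2) +
      3 * max x.1 (max x.2.1 x.2.2) ≤ 24 + (x.1 + x.2.1 + x.2.2) ∧
    (x.1 + x.2.1 + x.2.2) + (y.1 + y.2.1 + y.2.2) + (z.1 + z.2.1 + z.2.2) + (u.1 + u.2.1 + u.2.2) +
      3 * max y.1 (max y.2.1 y.2.2) ≤ 24 + (y.1 + y.2.1 + y.2.2) ∧
    (x.1 + x.2.1 + x.2.2) + (y.1 + y.2.1 + y.2.2) + (z.1 + z.2.1 + z.2.2) + (u.1 + u.2.1 + u.2.2) +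
      3 * max z.1 (max z.2.1 z.2.2) ≤ 24 + (z.1 + z.2.1 + z.2.2) ∧
    (x.1 + x.2.1 + x.2.2) + (y.1 + y.2.1 + y.2.2) + (z.1 + z.2.1 + z.2.2) + (u.1 + u.2.1 + u.2.2) +
      3 * max u.1 (max u.2.1 u.2.2) ≤ 24 + (u.1 + u.2.1 + u.2.2) := by
  unfold TD at t
  refine ⟨?_, ?_, ?_, ?_⟩ <;> omega

attribute [local irreducible] uu Tj Mj sg ep tr ps

theorem UB0 {g : ℕ → ℕ → ℕ} (H : HL g) (hg : ∀ x, CA (g x) ∧ (CB (g x) ∨ CC (g x))) :
    ∑ x ∈ range 13, uu (g x) ≤ 69 := by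
  have m : ∀ y, y % 13 < 13 := fun y => Nat.mod_lt _ (by norm_num)
  have T := fun (l : ℕ) (h : l < 13) (x j : ℕ) (hj : j < 4) => trf (hg x).1 hj (ep12 l h j hj)
  by_cases hb : ∃ x < 13, CB (g x)
  · obtain ⟨x, hx, hb⟩ := hb
    have W : ∀ l < 13, DL (fun x => uu (g x)) l + 3 * Mj (g l) 0 ≤ 24 + uu (g l) ∧
        DL (fun x => uu (g x)) l + 3 * Mj (g ((l + 1) % 13)) 1 ≤ 24 + uu (g ((l + 1) % 13)) ∧
        DL (fun x => uu (g x)) l + 3 * Mj (g ((l + 3) % 13)) 2 ≤ 24 + uu (g ((l + 3) % 13)) ∧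
        DL (fun x => uu (g x)) l + 3 * Mj (g ((l + 9) % 13)) 3 ≤ 24 + uu (g ((l + 9) % 13)) := by
      intro l h
      have t := (H.td h).bd
      rw [(T l h l 0 (by omega)).2.2.2.2.1, (T l h l 0 (by omega)).2.2.2.2.2,
        (T l h _ 1 (by omega)).2.2.2.2.1, (T l h _ 1 (by omega)).2.2.2.2.2,
        (T l h _ 2 (by omega)).2.2.2.2.1, (T l h _ 2 (by omega)).2.2.2.2.2,
        (T l h _ 3 (by omega)).2.2.2.2.1, (T l h _ 3 (by omega)).2.2.2.2.2] at t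
      rw [DL, sp _ h]
      exact t
    have w0 := (W x hx).1
    have w1 := (W _ (m (x + 12))).2.1
    have w2 := (W _ (m (x + 10))).2.2.1
    have w3 := (W _ (m (x + 4))).2.2.2
    rw [show ((x + 12) % 13 + 1) % 13 = x by omega] at w1
    rw [show ((x + 10) % 13 + 3) % 13 = x by omega] at w2
    rw [show ((x + 4) % 13 + 9) % 13 = x by omega] at w3
    have := dc (fun x => uu (g x)) hx
    unfold CB at hb
    omega
  have hc : ∀ x < 13, CC (g x) := fun x hx => (hg x).2.resolve_left fun h => hb ⟨x, hx, h⟩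
  choose! k k1 k2 using fun x hx => (hc x hx).2
  by_contra hn
  have u6 : ∀ x < 13, ∀ j < 4, dt (Tj (g x) j) = 6 - uu (g x) := fun x hx j hj => by
    have := ((hc x hx).1 j hj).2; omega
  have h4 : ∑ x ∈ range 13, (6 - uu (g x)) ≤ 8 := by
    have : ∑ x ∈ range 13, (6 - uu (g x) + uu (g x)) = ∑ x ∈ range 13, 6 :=
      sum_congr rfl fun x hx => by have := ((hc x (mem_range.1 hx)).1 0 (by omega)).2; omega
    rw [sum_add_distrib] at this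
    simp only [sum_const, card_range, smul_eq_mul] at this
    omega
  refine Good.no (τ := fun x l => Tj (g x) (ps x l)) (d := fun x => 6 - uu (g x)) (k := k)
    ⟨fun x hx l _ _ => ⟨((hc x hx).1 _ (ps4 _ _)).1, u6 x hx _ (ps4 _ _)⟩,
      fun x hx => ⟨k1 x hx, ?_⟩, fun l h A hA => ?_, h4⟩
  · obtain ⟨a, b, c, d, -⟩ := ps1 x hx
    rw [sl (fun l => 5 ^ Tj (g x) (ps x l)) hx, a, b, c, d, k2 x hx]
  · obtain ⟨a, -, -, -, b, c, d⟩ := ps1 l h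
    have e : ∑ x ∈ A, (if inc x l then w (Tj (g x) (ps x l)) else 0) = ∑ x ∈ range 13,
        if inc x l then (if x ∈ A then w (Tj (g x) (ps x l)) else 0) else 0 := by
      rw [← sum_subset hA (fun x _ hx => by simp [hx])]
      exact sum_congr rfl fun x hx => by simp [hx]
    have D : DL (fun x => 6 - uu (g x)) l ≤ 8 :=
      (sum_le_sum fun x _ => by split_ifs <;> simp).trans h4
    rw [e, sp (fun x => if x ∈ A then w (Tj (g x) (ps x l)) else 0) h, a, b, c, d]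
    rw [DL, sp _ h, ← u6 l h 0 (by omega), ← u6 _ (m (l + 1)) 1 (by omega),
      ← u6 _ (m (l + 3)) 2 (by omega), ← u6 _ (m (l + 9)) 3 (by omega)] at D ⊢
    have v : ∀ x < 13, ∀ j < 4, V (tr (g x) j (ep l j)) := fun x hx j hj => by
      obtain ⟨a, b, c, d, -⟩ := T l h x j hj
      exact ⟨b, c, d, a ▸ ((hc x hx).1 j hj).1⟩
    have G := LL2 (H.td h) (v l h 0 (by omega)) (v _ (m _) 1 (by omega)) (v _ (m _) 2 (by omega))
      (v _ (m _) 3 (by omega))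
    rw [GB, (T l h _ 0 (by omega)).1, (T l h _ 1 (by omega)).1, (T l h _ 2 (by omega)).1,
      (T l h _ 3 (by omega)).1] at G
    exact FE ((hc l h).1 0 (by omega)).1 ((hc _ (m _)).1 1 (by omega)).1
      ((hc _ (m _)).1 2 (by omega)).1 ((hc _ (m _)).1 3 (by omega)).1 G D _ _ _ _

theorem pp9 : ∀ j < 4, ∀ t < 3, ∀ k < 3, pp j t k < 9 := by decide +kernel

theorem bits {g : ℕ → ℕ} (b : ∀ p, g p ≤ 1) : ∃ m < 512, ∀ p < 9, g p = lk m 1 p := by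
  have := b 0; have := b 1; have := b 2; have := b 3; have := b 4; have := b 5
  have := b 6; have := b 7; have := b 8
  refine ⟨g 0 + 2 * g 1 + 4 * g 2 + 8 * g 3 + 16 * g 4 + 32 * g 5 + 64 * g 6 + 128 * g 7 +
    256 * g 8, by omega, fun p hp => ?_⟩
  rw [lk1]
  interval_cases p <;> omega

theorem sg_cg {g g' : ℕ → ℕ} (h : ∀ p < 9, g p = g' p) {j : ℕ} (hj : j < 4) (t : ℕ) :
    sg g j (t % 3) = sg g' j (t % 3) := by
  have := pp9 j hj _ (Nat.mod_lt t (by norm_num))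
  unfold sg
  rw [h _ (this 0 (by omega)), h _ (this 1 (by omega)), h _ (this 2 (by omega))]

theorem uu_eq (g : ℕ → ℕ) : uu g = ∑ p ∈ range 9, g p := by
  unfold uu; simp [sum_range_succ]

theorem s117 (f : ℕ → ℕ) (n : ℕ) :
    ∑ i ∈ range (9 * n), f i = ∑ x ∈ range n, ∑ p ∈ range 9, f (9 * x + p) := by
  induction n with
  | zero => rfl
  | succ n ih => rw [Nat.mul_succ, sum_range_add, ih, sum_range_succ _ n]

theorem UB {f : ℕ → ℕ} (hf : ∀ i, f i ≤ 1) (H : HL fun x p => f (9 * x + p)) :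
    ∑ i ∈ range 117, f i ≤ 69 := by
  choose m m1 m2 using fun x => bits (g := fun p => f (9 * x + p)) fun _ => hf _
  have := UB0 (g := fun x => lk (m x) 1) (fun l hl a ha b hb => by
    have := H l hl a ha b hb
    rwa [sg_cg (m2 _) (by omega), sg_cg (m2 _) (by omega), sg_cg (m2 _) (by omega),
      sg_cg (m2 _) (by omega)] at this) fun x => cl _ (m1 x)
  rw [s117 f 13]
  refine le_trans (le_of_eq (sum_congr rfl fun x _ => ?_)) this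
  rw [uu_eq]
  exact sum_congr rfl fun p hp => m2 x p (mem_range.1 hp)

end Pool.Agent.H.MP_4f92f0_co
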